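import Mathlib
import Pool.Agent.H902R3.PZ.Stmts
import Pool.Agent.H5R3.Task469N

set_option autoImplicit false

/-!
MP_995735 (helper902), TASK PZ-N: size of the extra source.
-/

open Finset MeasureTheory Filter

namespace Pool.Agent.H13R3.PZN

open Pool.Agent.H469R10.HO Pool.Agent.H902R3.PZ Pool.Agent.H5R3.T469N

lemma st_contDiff : ContDiff ℝ 2 Real.smoothTransition := Real.smoothTransition.contDiff

lemma st_hasDeriv (x : ℝ) : HasDerivAt Real.smoothTransition (deriv Real.smoothTransition x) x :=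
  (st_contDiff.differentiable (by norm_num)).differentiableAt.hasDerivAt

lemma st_deriv_cont : Continuous (deriv Real.smoothTransition) := st_contDiff.continuous_deriv (by norm_num)

lemma st_deriv_bound : ∃ K : ℝ, 0 ≤ K ∧ ∀ x, |deriv Real.smoothTransition x| ≤ K := by
  obtain ⟨K, hK⟩ := (isCompact_Icc (a := (0:ℝ)) (b := 1)).exists_bound_of_continuousOn
    (st_deriv_cont.continuousOn)
  refine ⟨max K 0, le_max_right _ _, fun x => ?_⟩
  rcases lt_or_ge x 0 with h | h
  · have h1 : deriv Real.smoothTransition x = 0 := by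
      have h2 : Real.smoothTransition =ᶠ[nhds x] fun _ => (0:ℝ) := by
        filter_upwards [Iio_mem_nhds h] with y hy
        exact Real.smoothTransition.zero_of_nonpos (le_of_lt hy)
      rw [h2.deriv_eq, deriv_const]
    rw [h1, abs_zero]
    exact le_max_right _ _
  rcases lt_or_ge 1 x with h' | h'
  · have h1 : deriv Real.smoothTransition x = 0 := by
      have h2 : Real.smoothTransition =ᶠ[nhds x] fun _ => (1:ℝ) := by
        filter_upwards [Ioi_mem_nhds h'] with y hy
        exact Real.smoothTransition.one_of_one_le (le_of_lt hy)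
      rw [h2.deriv_eq, deriv_const]
    rw [h1, abs_zero]
    exact le_max_right _ _
  · exact (hK x ⟨h, h'⟩).trans (le_max_left _ _)

/-- `x ^ k h (log x)` is continuous for `h` bounded and continuous. -/
lemma cont_log {h : ℝ → ℝ} (hc : Continuous h) {M : ℝ} (hM : ∀ y, |h y| ≤ M) {k : ℕ} (hk : 1 ≤ k) :
    Continuous fun x : ℝ => x ^ k * h (Real.log x) := by
  rw [continuous_iff_continuousAt]
  intro x
  by_cases hx : x = 0
  · subst hx
    have h0 : (0:ℝ) ^ k * h (Real.log 0) = 0 := by rw [zero_pow (by omega)]; ring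
    change Tendsto (fun x : ℝ => x ^ k * h (Real.log x)) (nhds 0) (nhds ((0:ℝ) ^ k * h (Real.log 0)))
    rw [h0]
    apply squeeze_zero_norm (a := fun x : ℝ => |x| ^ k * M)
    · intro t
      rw [norm_mul, norm_pow, Real.norm_eq_abs, Real.norm_eq_abs]
      gcongr
      exact hM _
    · have h1 : Continuous fun x : ℝ => |x| ^ k * M := by fun_prop
      have h2 := h1.tendsto 0
      simpa [zero_pow (show k ≠ 0 by omega)] using h2
  · exact (continuousAt_id.pow k).mul (hc.continuousAt.comp (Real.continuousAt_log hx))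

lemma hasDeriv_log {h h' : ℝ → ℝ} (hd : ∀ x, HasDerivAt h (h' x) x) {M : ℝ} (hM : ∀ y, |h y| ≤ M) {m : ℕ}
    (hm : 2 ≤ m) (x : ℝ) : HasDerivAt (fun x : ℝ => x ^ m * h (Real.log x))
      (m * (x ^ (m - 1) * h (Real.log x)) + x ^ (m - 1) * h' (Real.log x)) x := by
  have hc : Continuous h := continuous_iff_continuousAt.2 fun x => (hd x).continuousAt
  by_cases hx : x = 0
  · subst hx
    rw [zero_pow (show m - 1 ≠ 0 by omega), zero_mul, zero_mul, mul_zero, add_zero, hasDerivAt_iff_tendsto_slope]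
    have h1 := (cont_log hc hM (k := m - 1) (by omega)).tendsto 0
    rw [zero_pow (show m - 1 ≠ 0 by omega), zero_mul] at h1
    refine (h1.mono_left nhdsWithin_le_nhds).congr' ?_
    filter_upwards [self_mem_nhdsWithin] with t ht
    have ht' : t ≠ 0 := ht
    obtain ⟨k, rfl⟩ : ∃ k, m = k + 1 := ⟨m - 1, by omega⟩
    rw [slope_def_field, sub_zero, zero_pow (by omega), zero_mul, sub_zero]
    simp only [Nat.add_sub_cancel]
    rw [pow_succ]
    field_simp
  · have h1 := (hasDerivAt_pow m x).mul ((hd (Real.log x)).comp x (Real.hasDerivAt_log hx))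
    refine HasDerivAt.congr_deriv h1 ?_
    simp only [Function.comp_apply]
    obtain ⟨k, rfl⟩ : ∃ k, m = k + 1 := ⟨m - 1, by omega⟩
    simp only [Nat.add_sub_cancel]
    rw [pow_succ]
    field_simp

/-- constant of the transition -/
noncomputable def kk : ℝ := 2 * Real.log (4 / 3)

lemma kk_pos : 0 < kk := by
  unfold kk
  have := Real.log_pos (show (1:ℝ) < 4 / 3 by norm_num)
  positivity

noncomputable def gg (L y : ℝ) : ℝ := Real.smoothTransition (1 / 2 - y / kk) * Real.sin (L * y)

noncomputable def gg' (L y : ℝ) : ℝ :=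
  (deriv Real.smoothTransition (1 / 2 - y / kk) * (-(1 / kk))) * Real.sin (L * y) +
    Real.smoothTransition (1 / 2 - y / kk) * (Real.cos (L * y) * L)

lemma gg_hasDeriv (L y : ℝ) : HasDerivAt (gg L) (gg' L y) y := by
  unfold gg gg'
  have h1 : HasDerivAt (fun y : ℝ => 1 / 2 - y / kk) (-(1 / kk)) y := by
    have := ((hasDerivAt_id y).div_const kk).const_sub (1 / 2)
    simpa using this
  have h2 : HasDerivAt (fun y : ℝ => L * y) L y := by
    have := (hasDerivAt_id y).const_mul L
    simpa using this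
  exact ((st_hasDeriv _).comp y h1).mul h2.sin

lemma gg_cont (L : ℝ) : Continuous (gg L) := continuous_iff_continuousAt.2 fun x => (gg_hasDeriv L x).continuousAt

lemma gg'_cont (L : ℝ) : Continuous (gg' L) := by
  unfold gg'
  have h1 : Continuous fun y : ℝ => deriv Real.smoothTransition (1 / 2 - y / kk) :=
    st_deriv_cont.comp (by fun_prop)
  have h2 : Continuous fun y : ℝ => Real.smoothTransition (1 / 2 - y / kk) :=
    Real.smoothTransition.continuous.comp (by fun_prop)
  fun_prop

lemma gg_bound (L y : ℝ) : |gg L y| ≤ 1 := by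
  unfold gg
  rw [abs_mul, abs_of_nonneg (Real.smoothTransition.nonneg _)]
  calc Real.smoothTransition (1 / 2 - y / kk) * |Real.sin (L * y)| ≤ 1 * 1 := by
        gcongr
        · exact Real.smoothTransition.le_one _
        · exact Real.abs_sin_le_one _
    _ = 1 := one_mul _

lemma gg'_bound (L : ℝ) : ∃ M : ℝ, ∀ y, |gg' L y| ≤ M := by
  obtain ⟨K, hK0, hK⟩ := st_deriv_bound
  refine ⟨K * (1 / kk) + |L|, fun y => ?_⟩
  unfold gg'
  have hk := kk_pos
  refine (abs_add_le _ _).trans (add_le_add ?_ ?_)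
  · rw [abs_mul, abs_mul, abs_neg, abs_of_pos (show 0 < 1 / kk by positivity)]
    calc |deriv Real.smoothTransition (1 / 2 - y / kk)| * (1 / kk) * |Real.sin (L * y)| ≤ K * (1 / kk) * 1 := by
          gcongr
          · exact hK _
          · exact Real.abs_sin_le_one _
      _ = K * (1 / kk) := mul_one _
  · rw [abs_mul, abs_mul, abs_of_nonneg (Real.smoothTransition.nonneg _)]
    calc Real.smoothTransition (1 / 2 - y / kk) * (|Real.cos (L * y)| * |L|) ≤ 1 * (1 * |L|) := by
          gcongr
          · exact Real.smoothTransition.le_one _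
          · exact Real.abs_cos_le_one _
      _ = |L| := by ring

lemma rr_eq (m : ℕ) (L : ℝ) : rr m 1 L = fun x => x ^ m * gg L (Real.log x) := by
  funext x
  unfold rr RR th gg kk
  ring

lemma PP_rr (m : ℕ) (C L : ℝ) (j : ℕ) : PP (rr m C L) j = C * PP (rr m 1 L) j := by
  unfold PP
  have : ∀ x, rr m C L x * Real.cos (xx j * x) = C * (rr m 1 L x * Real.cos (xx j * x)) := fun x => by
    unfold rr RR; ring
  simp_rw [this]
  rw [intervalIntegral.integral_const_mul, mul_div_assoc]

theorem taskN' : TaskN' := by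
  intro m L hm
  obtain ⟨M', hM'⟩ := gg'_bound L
  have hM0 : 0 ≤ M' := (abs_nonneg _).trans (hM' 0)
  set f' : ℝ → ℝ := fun x => m * (x ^ (m - 1) * gg L (Real.log x)) + x ^ (m - 1) * gg' L (Real.log x) with hf'
  have hd : ∀ x, HasDerivAt (rr m 1 L) (f' x) x := fun x => by
    rw [rr_eq]
    exact hasDeriv_log (gg_hasDeriv L) (gg_bound L) hm x
  have hf'c : Continuous f' := (continuous_const.mul (cont_log (gg_cont L) (gg_bound L) (by omega))).add
    (cont_log (gg'_cont L) hM' (by omega))
  have hfc : Continuous (rr m 1 L) := continuous_iff_continuousAt.2 fun x => (hd x).continuousAt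
  obtain ⟨A, hA⟩ := (isCompact_Icc (a := (0:ℝ)) (b := 2)).exists_bound_of_continuousOn hfc.continuousOn
  obtain ⟨A', hA'⟩ := (isCompact_Icc (a := (0:ℝ)) (b := 2)).exists_bound_of_continuousOn hf'c.continuousOn
  set Q : ℝ := 4 * A ^ 2 + 4 * A' ^ 2 with hQ
  have hQ0 : 0 ≤ Q := by positivity
  refine ⟨256 * (Q + 1), by positivity, ?_⟩
  intro c hc hc1 C J
  have g := weighted_bessel hd hf'c (M := A) (M' := A') hA hA' (range J)
  calc ∑ j ∈ range J, WW c j * (PP (rr m C L) j) ^ 2 ≤
      ∑ j ∈ range J, 256 / c * C ^ 2 * ((1 + (j:ℝ)) ^ 2 * (PP (rr m 1 L) j) ^ 2) := by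
        apply sum_le_sum
        intro j _
        rw [PP_rr, mul_pow]
        calc WW c j * (C ^ 2 * PP (rr m 1 L) j ^ 2) ≤ (256 / c * (1 + (j:ℝ)) ^ 2) * (C ^ 2 * PP (rr m 1 L) j ^ 2) :=
              mul_le_mul_of_nonneg_right (WW_le hc hc1 j) (by positivity)
          _ = _ := by ring
    _ = 256 / c * C ^ 2 * ∑ j ∈ range J, (1 + (j:ℝ)) ^ 2 * (PP (rr m 1 L) j) ^ 2 := by rw [mul_sum]
    _ ≤ 256 / c * C ^ 2 * Q := by gcongr
    _ ≤ 256 / c * C ^ 2 * (Q + 1) := by
        have : 0 ≤ 256 / c * C ^ 2 := by positivity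
        nlinarith
    _ = 256 * (Q + 1) * C ^ 2 / c := by ring

end Pool.Agent.H13R3.PZN
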